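import Pool.Agent.H508R3.AT.Stmts

/-!
Task T0 of the project 508-AT (helper508): resampling is measure preserving.
-/

set_option autoImplicit false

namespace Pool.Agent.H721R3.ATT0

open MeasureTheory Filter Topology Set
open Pool.Agent.H695R3.AT
open Pool.Agent.H508R3.AT

theorem t0 : Pool.Agent.H508R3.AT.T0 := by
  intro s Pv hP N
  classical
  have hm : Measurable (fun p : Om s × Om s => comb s N p.1 p.2) := by
    refine measurable_pi_lambda _ fun x => ?_
    unfold comb
    by_cases hx : x.1 < N
    · simp only [hx, if_true]
      exact (measurable_pi_apply x).comp measurable_fst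
    · simp only [hx, if_false]
      exact (measurable_pi_apply x).comp measurable_snd
  refine ⟨hm, ?_⟩
  have key : Measure.map (fun p : Om s × Om s => comb s N p.1 p.2) ((PP s Pv).prod (PP s Pv))
      = Measure.infinitePi fun _ : Vtx s => Pv := by
    refine Measure.eq_infinitePi _ fun F t ht => ?_
    have hF : MeasurableSet (Set.pi (F : Set (Vtx s)) t) :=
      MeasurableSet.pi F.countable_toSet fun i _ => ht i
    rw [Measure.map_apply hm hF]
    have hpre : (fun p : Om s × Om s => comb s N p.1 p.2) ⁻¹' (Set.pi (F : Set (Vtx s)) t)
        = (Set.pi ((F.filter fun x => x.1 < N : Finset (Vtx s)) : Set (Vtx s)) t) ×ˢ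
          (Set.pi ((F.filter fun x => ¬ x.1 < N : Finset (Vtx s)) : Set (Vtx s)) t) := by
      ext p
      simp only [Set.mem_preimage, Set.mem_pi, Set.mem_prod, Finset.coe_filter, Set.mem_ofPred_eq,
        Finset.mem_coe, comb]
      constructor
      · intro h
        refine ⟨fun i hi => ?_, fun i hi => ?_⟩
        · have := h i hi.1
          rwa [if_pos hi.2] at this
        · have := h i hi.1
          rwa [if_neg hi.2] at this
      · intro h i hi
        by_cases hN : i.1 < N
        · rw [if_pos hN]; exact h.1 i ⟨hi, hN⟩
        · rw [if_neg hN]; exact h.2 i ⟨hi, hN⟩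
    rw [hpre, Measure.prod_prod]
    unfold PP
    rw [Measure.infinitePi_pi _ (fun i _ => ht i), Measure.infinitePi_pi _ (fun i _ => ht i)]
    exact Finset.prod_filter_mul_prod_filter_not F (fun x => x.1 < N) (fun i => Pv (t i))
  exact key

end Pool.Agent.H721R3.ATT0
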